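import Pool.Agent.Helper91.HV.DIPa

/-! Sheet HW, row DIE: the energy of the potential of a compactly supported divergence is
nonnegative (after `dipGL` of Helper91/HV/DIPa.lean). -/

set_option autoImplicit false

namespace Pool.Agent.Helper59.HW

open MeasureTheory Filter Topology Pool.Agent.Helper95.PW Pool.Agent.Helper95.LN
open Pool.Agent.Helper95.HV
open Pool.Agent.Helper64.HS Pool.Agent.Helper94.LN Pool.Agent.Helper91.HV

theorem dipGL0 {Φ : R3 → ℝ} {F : Fin 3 → R3 → ℝ} (hΦ : ContDiff ℝ (⊤ : ℕ∞) Φ)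
    (hF : ∀ i, ContDiff ℝ (⊤ : ℕ∞) (F i)) (hFc : ∀ i, HasCompactSupport (F i))
    (hl : ∀ w, lap Φ w = -∑ i, pd i (F i) w) (A : ℝ)
    (hb : ∀ w, |Φ w| ≤ A * eidE w ^ 2) :
    0 ≤ ∑ i, ∫ w, Φ w * pd i (F i) w := by
  obtain ⟨D, hD0, hD⟩ := chi_pd
  have hR : ∀ i, ∃ R : ℝ, tsupport (F i) ⊆ Metric.closedBall 0 R := fun i =>
    (hFc i).isCompact.isBounded.subset_closedBall 0
  choose R hR using hR
  obtain ⟨N0, hN0⟩ := exists_nat_gt (∑ i, |R i|)
  have hRN : ∀ (i : Fin 3) (w : R3), w ∈ tsupport (F i) → ‖w‖ < N0 := by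
    intro i w hw
    have h1 := hR i hw
    rw [mem_closedBall_zero_iff] at h1
    have h2 : |R i| ≤ ∑ i, |R i| :=
      Finset.single_le_sum (f := fun i => |R i|) (fun j _ => abs_nonneg _) (Finset.mem_univ i)
    have h3 := le_abs_self (R i)
    linarith
  have hEint : 0 ≤ ∫ w, eidE w ^ 4 := integral_nonneg fun w => by positivity
  -- the main estimate
  have key : ∀ N : ℕ, N0 ≤ N → 0 ≤ (∑ i, ∫ w, Φ w * pd i (F i) w) +
      3 * (A ^ 2 * (D / ((N : ℝ) + 1)) ^ 2 * ∫ w, eidE w ^ 4) := by
    intro N hN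
    have hNr : (N0 : ℝ) ≤ N := by exact_mod_cast hN
    have p0 : ∀ (i : Fin 3) (w : R3), w ∈ tsupport (F i) → chi N w = 1 := by
      intro i w hw
      exact chi_one (by have := hRN i w hw; linarith)
    have p1 : ∀ i w, F i w * chi N w = F i w := by
      intro i w
      by_cases hw : w ∈ tsupport (F i)
      · rw [p0 i w hw, mul_one]
      · rw [image_eq_zero_of_notMem_tsupport hw, zero_mul]
    have p2 : ∀ i w, F i w * pd i (chi N) w = 0 := by
      intro i w
      by_cases hw : w ∈ tsupport (F i)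
      · have e1 : chi N =ᶠ[𝓝 w] fun _ => (1 : ℝ) := by
          have hop : IsOpen {w : R3 | ‖w‖ < (N : ℝ) + 1} :=
            isOpen_lt continuous_norm continuous_const
          filter_upwards [hop.mem_nhds (by
            have := hRN i w hw
            show ‖w‖ < (N : ℝ) + 1
            linarith)] with z hz
          exact chi_one (le_of_lt hz)
        have e2 : pd i (chi N) w = 0 := by
          unfold pd
          rw [e1.fderiv_eq]
          simp
        rw [e2, mul_zero]
      · rw [image_eq_zero_of_notMem_tsupport hw, zero_mul]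
    have p3 : ∀ i w, pd i (F i) w * chi N w = pd i (F i) w := by
      intro i w
      by_cases hw : w ∈ tsupport (F i)
      · rw [p0 i w hw, mul_one]
      · have e1 : pd i (F i) w = 0 := by
          unfold pd
          rw [fderiv_of_notMem_tsupport ℝ hw]
          simp
        rw [e1, zero_mul]
    have cchi := (chi_smooth N)
    have schi := chi_cs N
    have cΦi : ∀ i, Continuous (pd i Φ) := fun i => (pd_cd hΦ i).continuous
    have cΦii : ∀ i, Continuous (pd i (pd i Φ)) := fun i => (pd_cd (pd_cd hΦ i) i).continuous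
    have cFi : ∀ i, Continuous (pd i (F i)) := fun i => (pd_cd (hF i) i).continuous
    have cci : ∀ i, Continuous (pd i (chi N)) := fun i => (pd_cd cchi i).continuous
    -- (a)
    have ha : ∀ i, ∫ w, Φ w * pd i (F i) w = -∫ w, pd i Φ w * F i w := fun i =>
      eid_ibp i hΦ (hF i) (hFc i)
    -- (b)
    have hg : ContDiff ℝ (⊤ : ℕ∞) (fun w => chi N w * (chi N w * Φ w)) :=
      cchi.mul (cchi.mul hΦ)
    have hgc : HasCompactSupport (fun w => chi N w * (chi N w * Φ w)) := schi.mul_right
    have hbb : ∀ i, ∫ w, pd i Φ w * pd i (fun w => chi N w * (chi N w * Φ w)) w =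
        -∫ w, pd i (pd i Φ) w * (chi N w * (chi N w * Φ w)) := fun i =>
      eid_ibp i (pd_cd hΦ i) hg hgc
    have hpg : ∀ i w, pd i (fun w => chi N w * (chi N w * Φ w)) w =
        pd i (chi N) w * (chi N w * Φ w) + chi N w * (pd i (chi N) w * Φ w + chi N w * pd i Φ w) := by
      intro i w
      rw [eid_pd_mul (eid_diff cchi) (eid_diff (cchi.mul hΦ)) i w,
        eid_pd_mul (eid_diff cchi) (eid_diff hΦ) i w]
    have hc : ∑ i, ∫ w, pd i Φ w * pd i (fun w => chi N w * (chi N w * Φ w)) w =
        ∑ i, ∫ w, Φ w * pd i (F i) w := by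
      have j1 : ∀ i, Integrable fun w => pd i (pd i Φ) w * (chi N w * (chi N w * Φ w)) := fun i =>
        ((cΦii i).mul hg.continuous).integrable_of_hasCompactSupport hgc.mul_left
      have j2 : ∀ i, Integrable fun w => Φ w * pd i (F i) w := fun i =>
        (hΦ.continuous.mul (cFi i)).integrable_of_hasCompactSupport (pd_cs (hFc i) i).mul_left
      rw [Finset.sum_congr rfl fun i _ => hbb i, Finset.sum_neg_distrib,
        ← integral_finsetSum _ fun i _ => j1 i, ← integral_finsetSum _ fun i _ => j2 i,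
        ← integral_neg]
      congr 1
      funext w
      rw [← Finset.sum_mul]
      have e1 : ∑ i, pd i (pd i Φ) w = -∑ i, pd i (F i) w := hl w
      rw [e1, neg_mul, neg_neg, Finset.sum_mul]
      refine Finset.sum_congr rfl fun i _ => ?_
      have e2 := p3 i w
      calc pd i (F i) w * (chi N w * (chi N w * Φ w)) =
          (pd i (F i) w * chi N w) * chi N w * Φ w := by ring
        _ = Φ w * pd i (F i) w := by rw [e2, e2]; ring
    -- combine
    have k1 : ∀ i, Integrable fun w => pd i Φ w * F i w := fun i =>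
      ((cΦi i).mul (hF i).continuous).integrable_of_hasCompactSupport (hFc i).mul_left
    have k2 : ∀ i, Integrable fun w =>
        pd i Φ w * pd i (fun w => chi N w * (chi N w * Φ w)) w := fun i =>
      ((cΦi i).mul (pd_cd hg i).continuous).integrable_of_hasCompactSupport
        (pd_cs hgc i).mul_left
    have k3 : ∀ i, Integrable fun w => F i w ^ 2 := fun i => by
      have := ((hF i).continuous.mul (hF i).continuous).integrable_of_hasCompactSupport
        (μ := volume) (hFc i).mul_left
      refine this.congr (Eventually.of_forall fun w => ?_)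
      simp only [Pi.mul_apply]
      ring
    have k4 : ∀ i, Integrable fun w => (Φ w * pd i (chi N) w) ^ 2 := fun i => by
      have := ((hΦ.continuous.mul (cci i)).mul
        (hΦ.continuous.mul (cci i))).integrable_of_hasCompactSupport
        (μ := volume) ((pd_cs schi i).mul_left.mul_left)
      refine this.congr (Eventually.of_forall fun w => ?_)
      simp only [Pi.mul_apply]
      ring
    have m1 : ∀ i, 0 ≤
        (∫ w, pd i Φ w * pd i (fun w => chi N w * (chi N w * Φ w)) w) +
          ∫ w, (Φ w * pd i (chi N) w) ^ 2 := by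
      intro i
      rw [← integral_add (k2 i) (k4 i)]
      refine integral_nonneg fun w => ?_
      simp only [Pi.zero_apply]
      rw [hpg i w]
      have e3 := sq_nonneg (chi N w * pd i Φ w + Φ w * pd i (chi N) w)
      nlinarith
    have m2 : ∀ i, ∫ w, (Φ w * pd i (chi N) w) ^ 2 ≤
        A ^ 2 * (D / ((N : ℝ) + 1)) ^ 2 * ∫ w, eidE w ^ 4 := by
      intro i
      rw [← integral_const_mul]
      refine integral_mono (k4 i) (eidE_int.const_mul _) fun w => ?_
      simp only
      have e1 := hb w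
      have e2 := (hD N i w).1
      have e3 : |Φ w * pd i (chi N) w| ≤ (A * eidE w ^ 2) * (D / ((N : ℝ) + 1)) := by
        rw [abs_mul]
        exact mul_le_mul e1 e2 (abs_nonneg _) ((abs_nonneg _).trans e1)
      have e4 : (Φ w * pd i (chi N) w) ^ 2 ≤ ((A * eidE w ^ 2) * (D / ((N : ℝ) + 1))) ^ 2 := by
        rw [← sq_abs]
        exact pow_le_pow_left₀ (abs_nonneg _) e3 2
      refine e4.trans (le_of_eq ?_)
      ring
    have t1 := Finset.sum_le_sum fun i (_ : i ∈ Finset.univ) => m1 i
    have t2 := Finset.sum_le_sum fun i (_ : i ∈ Finset.univ) => m2 i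
    rw [Finset.sum_const_zero, Finset.sum_add_distrib, hc] at t1
    have t4 : ∑ _i : Fin 3, A ^ 2 * (D / ((N : ℝ) + 1)) ^ 2 * (∫ w, eidE w ^ 4) =
        3 * (A ^ 2 * (D / ((N : ℝ) + 1)) ^ 2 * ∫ w, eidE w ^ 4) := by
      rw [Finset.sum_const, Finset.card_univ, Fintype.card_fin, nsmul_eq_mul]
      norm_num
    rw [t4] at t2
    linarith
  -- the limit
  obtain ⟨c, hc⟩ : ∃ c : ℝ, c = 3 * (A ^ 2 * D ^ 2 * ∫ w, eidE w ^ 4) := ⟨_, rfl⟩
  have hc0 : 0 ≤ c := by rw [hc]; positivity
  refine le_of_forall_pos_le_add fun ε hε => ?_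
  obtain ⟨N1, hN1⟩ := exists_nat_gt (c / ε)
  have h1 := key (max N0 N1) (le_max_left _ _)
  have h2 : (N1 : ℝ) ≤ ((max N0 N1 : ℕ) : ℝ) := by exact_mod_cast le_max_right N0 N1
  generalize ((max N0 N1 : ℕ) : ℝ) = t at h1 h2
  have h3 : c / ε < t + 1 := by linarith
  have h4 : 0 ≤ c / ε := by positivity
  have ht : 1 ≤ t + 1 := by
    have : (0 : ℝ) ≤ N1 := Nat.cast_nonneg _
    linarith
  have h5 : 3 * (A ^ 2 * (D / (t + 1)) ^ 2 * ∫ w, eidE w ^ 4) = c / (t + 1) ^ 2 := by
    rw [hc, div_pow]
    ring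
  have h6 : c / (t + 1) ^ 2 ≤ ε := by
    rw [div_le_iff₀ (by positivity)]
    rw [div_lt_iff₀ hε] at h3
    nlinarith
  rw [h5] at h1
  linarith

end Pool.Agent.Helper59.HW
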