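import Pool.Agent.Helper26.HW.Stmts
import Pool.Agent.Helper33.PM.Com

/-! # HW: the row UNS -/

set_option autoImplicit false

namespace Pool.Agent.Helper59.HW

open MeasureTheory Filter Pool.Agent.Helper95 Pool.Agent.Helper95.PW Pool.Agent.Helper95.LN
  Pool.Agent.Helper95.CF
open Pool.Agent.Helper95.HV Pool.Agent.Helper26.HW

theorem uns_near1 {M : ℕ} (X : Fin M → R3) (d : ℝ) (y : R3) : 0 ≤ near1 X d y := by
  unfold near1
  refine Finset.sum_nonneg fun j _ => ?_
  split_ifs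
  · exact div_nonneg zero_le_one (com_nr_nonneg _)
  · exact le_rfl

theorem uns_cnt {n M : ℕ} (X : Fin M → R3) (d : ℝ) (hd : 0 < d) (x : Cf n) (i : Fin M) :
    ∑ k, (if nr (x k - X i) ≤ d / 2 then (1 : ℝ) else 0) ≤ cnt X (3 / 2 * d) x i := by
  unfold cnt
  refine Finset.sum_le_sum fun k _ => ?_
  split_ifs with h1 h2 h2
  · exact le_rfl
  · exact absurd (by linarith : nr (x k - X i) < 3 / 2 * d) h2
  · exact zero_le_one
  · exact le_rfl

theorem UNS (h1 : ST_DIE) (h2 : ST_FGZ) (h3 : ST_FFZ) (h4 : ST_NBZ) : ST_UNS := by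
  intro d hd hd1
  obtain ⟨C1, hC1, H1⟩ := h1 d hd hd1
  obtain ⟨C2, hC2, H2⟩ := h2 d hd hd1
  obtain ⟨C3, hC3, H3⟩ := h3 d hd hd1
  obtain ⟨C4, hC4, H4⟩ := h4 d hd hd1
  refine ⟨C1 * (C4 + 1) + C2 * (C3 + C4), by positivity, ?_⟩
  intro z K n M X Z x e a hDat hX hDn hRem hK he ha ha0
  obtain ⟨f, hf, hfs⟩ := H3 z n M X Z x hDat
  have hN := H4 z n M X Z x hDat
  have hD := H1 n M X x e a K hDat.sep hX he ha ha0
  have hK0 : 0 < K := by linarith
  have hz1 := hDat.z1
  have hz0 : 0 < z := by linarith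
  have hM0 : (0 : ℝ) ≤ M := Nat.cast_nonneg M
  have hf0 : ∀ i, 0 ≤ f i := by
    intro i
    have h := hf i 0 (X i) (by
      rw [sub_self]
      have : nr (0 : R3) = 0 := by
        unfold nr
        simp
      rw [this]
      exact hd.le)
    exact (abs_nonneg _).trans h
  have hnM : (n : ℝ) ≤ z ^ 2 * M := by
    rw [← hDat.nuc.2]
    calc ∑ j, Z j ≤ ∑ _j : Fin M, z := Finset.sum_le_sum fun j _ => hDat.le j
      _ = z * M := by
        rw [Finset.sum_const, Finset.card_univ, Fintype.card_fin, nsmul_eq_mul, mul_comm]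
      _ ≤ z ^ 2 * M := by
        refine mul_le_mul_of_nonneg_right ?_ hM0
        rw [pow_two]
        exact le_mul_of_one_le_right hz0.le hz1
  obtain ⟨P, hP⟩ : ∃ P : ℝ, P = z ^ 2 * M + Dn (d / 8) X Z x := ⟨_, rfl⟩
  rw [← hP] at hfs hN
  have hP0 : 0 ≤ P := by rw [hP]; positivity
  have hnear : 0 ≤ z * ∑ k, near1 X d (x k) :=
    mul_nonneg hz0.le (Finset.sum_nonneg fun k _ => uns_near1 X d _)
  have hLoc : P + Rem (d / 8) x ≤ Loc d z X Z x := by
    unfold Loc
    rw [hP]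
    linarith
  -- the difference
  have hdiff : |(∑ i, ∑ k, (if nr (x k - X i) ≤ d / 2 then
      (∑ l, if nr (x l - X i) < 3 / 2 * d then 0 else Tq (x k - x l) e (a k)) else 0)) -
      ∑ i, ∑ k, (if nr (x k - X i) ≤ d / 2 then
      (∑ j, if j = i then 0 else Z j * Tq (x k - X j) e (a k)) else 0)| ≤
      C2 * K ^ 2 * ∑ i, cnt X (3 / 2 * d) x i * f i := by
    rw [← Finset.sum_sub_distrib, Finset.mul_sum]
    refine (Finset.abs_sum_le_sum_abs _ _).trans (Finset.sum_le_sum fun i _ => ?_)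
    rw [← Finset.sum_sub_distrib]
    refine (Finset.abs_sum_le_sum_abs _ _).trans ?_
    have hstep : ∀ k ∈ Finset.univ, |(if nr (x k - X i) ≤ d / 2 then
        (∑ l, if nr (x l - X i) < 3 / 2 * d then 0 else Tq (x k - x l) e (a k)) else 0) -
        (if nr (x k - X i) ≤ d / 2 then
        (∑ j, if j = i then 0 else Z j * Tq (x k - X j) e (a k)) else 0)| ≤
        C2 * K ^ 2 * f i * (if nr (x k - X i) ≤ d / 2 then (1 : ℝ) else 0) := by
      intro k _
      split_ifs with hk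
      · rw [mul_one]
        exact H2 n M X Z x i (f i) K e (a k) (x k) hDat.sep (fun m y hy => hf i m y hy)
          (fun m => (he m).trans hK) (ha k) hk
      · simp
    refine (Finset.sum_le_sum hstep).trans ?_
    rw [← Finset.mul_sum]
    calc C2 * K ^ 2 * f i * ∑ k, (if nr (x k - X i) ≤ d / 2 then (1 : ℝ) else 0)
        ≤ C2 * K ^ 2 * f i * cnt X (3 / 2 * d) x i :=
          mul_le_mul_of_nonneg_left (uns_cnt X d hd x i)
            (mul_nonneg (by positivity) (hf0 i))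
      _ = C2 * K ^ 2 * (cnt X (3 / 2 * d) x i * f i) := by ring
  have hCS : ∑ i, cnt X (3 / 2 * d) x i * f i ≤ (C3 + C4) * P := by
    have h5 : ∑ i, cnt X (3 / 2 * d) x i * f i ≤
        ∑ i, (cnt X (3 / 2 * d) x i ^ 2 + f i ^ 2) := by
      refine Finset.sum_le_sum fun i _ => ?_
      nlinarith [sq_nonneg (cnt X (3 / 2 * d) x i - f i), sq_nonneg (cnt X (3 / 2 * d) x i),
        sq_nonneg (f i)]
    rw [Finset.sum_add_distrib] at h5
    linarith
  have hKK : K ≤ K ^ 2 := by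
    rw [pow_two]
    exact le_mul_of_one_le_right hK0.le hK
  have t1 : C1 * K * (∑ i, cnt X (3 / 2 * d) x i ^ 2 + n + Rem (d / 8) x) ≤
      C1 * K ^ 2 * ((C4 + 1) * Loc d z X Z x) := by
    have hs : 0 ≤ ∑ i, cnt X (3 / 2 * d) x i ^ 2 := Finset.sum_nonneg fun i _ => sq_nonneg _
    have hz2 : z ^ 2 * M ≤ P := by rw [hP]; linarith
    have b1 : ∑ i, cnt X (3 / 2 * d) x i ^ 2 + n + Rem (d / 8) x ≤
        (C4 + 1) * Loc d z X Z x := by
      have b2 : C4 * P ≤ C4 * Loc d z X Z x :=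
        mul_le_mul_of_nonneg_left (by linarith) hC4.le
      linarith
    have b0 : 0 ≤ ∑ i, cnt X (3 / 2 * d) x i ^ 2 + n + Rem (d / 8) x := by positivity
    exact mul_le_mul (mul_le_mul_of_nonneg_left hKK hC1.le) b1 b0 (by positivity)
  have t2 : C2 * K ^ 2 * ∑ i, cnt X (3 / 2 * d) x i * f i ≤
      C2 * K ^ 2 * ((C3 + C4) * Loc d z X Z x) := by
    refine mul_le_mul_of_nonneg_left (hCS.trans ?_) (by positivity)
    exact mul_le_mul_of_nonneg_left (by linarith) (by positivity)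
  have e : (C1 * (C4 + 1) + C2 * (C3 + C4)) * K ^ 2 * Loc d z X Z x =
      C1 * K ^ 2 * ((C4 + 1) * Loc d z X Z x) + C2 * K ^ 2 * ((C3 + C4) * Loc d z X Z x) := by
    ring
  rw [e]
  rw [abs_le] at hD hdiff ⊢
  constructor <;> linarith [hD.1, hD.2, hdiff.1, hdiff.2]

end Pool.Agent.Helper59.HW
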